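import Pool.Agent.W2helper39.DR.Ramsey

set_option autoImplicit false

/-!
# The dependence of the graph discrepancy Ramsey function on `α`

`F(n, α)` is the least `m ≥ 1` such that some 2-colouring of the pairs of an `n`-set has, inside
every set `X` with `|X| ≥ m`, more than `α (|X| choose 2)` pairs of each colour. For every fixed `α`
it is of order `log n`. We determine the order of the constant as a function of `α`, uniformly on
`[0, 1/2)`: it is `(1/2 - α)^(-2)`, with absolute constants,

`1/2000 ≤ liminf (1/2 - α)² F(n, α) / log n ≤ limsup (1/2 - α)² F(n, α) / log n ≤ 1`.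

Sketch of the lower bound near `1/2`. Let `δ = 1/2 - α`, `ε = 6 δ` and `s = ⌊log n / (18 ε²)⌋`. Each
vertex `v` has one colour on a set `P_v` of half of the vertices. A random `s`-tuple contains at
least `(1 + ε) s / 2` elements of `P_v` with probability at least
`exp(-9 ε² s) / 12 ≥ n^(-1/2) / 12` (second moment of `exp(3 ε D)`). So some injective tuple `S` has
`3 s` such vertices `v`, and `s` of them, outside of `S`, with the same colour form a set `T`. The
colour sum between `S` and `T` is at least `ε s²` in absolute value, hence the colour sum inside one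
of `S`, `T`, `S ∪ T` is too large.
-/

namespace Pool.Agent.Results.MP_9cb5ab_co.OrderNearHalf

open Filter Finset

open Classical in
/-- The number of pairs of elements of `X` that are edges of `G`. -/
noncomputable def inside {n : ℕ} (G : SimpleGraph (Fin n)) (X : Finset (Fin n)) : ℕ :=
  {p ∈ X ×ˢ X | p.1 < p.2 ∧ G.Adj p.1 p.2}.card

/-- Some split of the pairs of an `n`-set (the edges of `G` and those of its complement) has, inside
every set `X` of size at least `m`, more than `α * (|X| choose 2)` pairs of each class. -/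
def Splits (n : ℕ) (α : ℝ) (m : ℕ) : Prop :=
  ∃ G : SimpleGraph (Fin n), ∀ X : Finset (Fin n), m ≤ X.card →
    α * (X.card.choose 2 : ℕ) < inside G X ∧ α * (X.card.choose 2 : ℕ) < inside Gᶜ X

/-- The function `F(n, α)` of the problem. -/
noncomputable def F (n : ℕ) (α : ℝ) : ℕ := sInf {m | 1 ≤ m ∧ Splits n α m}

/-- For every `α` in `[0, 1/2)`: for each `κ > 1`, `F(n, α) ≤ κ log n / (1/2 - α)²` for all large
`n`, and `F(n, α) ≥ (1/2000) log n / (1/2 - α)²` for all large `n`. -/
theorem result (α : ℝ) (h0 : 0 ≤ α) (h1 : α < 1 / 2) :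
    (∀ κ : ℝ, 1 < κ → ∀ᶠ n : ℕ in atTop, (F n α : ℝ) ≤ κ * (Real.log n / (1 / 2 - α) ^ 2)) ∧
      ∀ᶠ n : ℕ in atTop, 1 / 2000 * (Real.log n / (1 / 2 - α) ^ 2) ≤ (F n α : ℝ) := by
  refine ⟨fun κ hκ => ?_, Pool.Agent.W2helper39.DR.lower_all h0 h1⟩
  filter_upwards [Pool.Agent.W2helper39.DR.upper_asym h1 hκ] with n hn
  rw [← mul_div_assoc]
  exact hn

end Pool.Agent.Results.MP_9cb5ab_co.OrderNearHalf
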